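import Mathlib

/-! Every affine map of a finite nilpotent group has a cycle of length equal to its order. -/

namespace Pool.Agent.Results.MP_27f3b7_al.Regular

variable {G : Type} [Group G] [Finite G]

def Inv (α : MulAut G) (H : Subgroup G) : Prop := H.map α.toMonoidHom = H

def IsMx (α : MulAut G) (M : Subgroup G) : Prop :=
  M.Normal ∧ M ≠ ⊤ ∧ Inv α M ∧ ∀ K, Inv α K → ¬ K ≤ M → K ⊔ M = ⊤

omit [Finite G] in
theorem Inv.pow {α : MulAut G} {H : Subgroup G} (h : Inv α H) (k : ℕ) (x : G) :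
    (α ^ k) x ∈ H ↔ x ∈ H := by
  induction k with
  | zero => simp
  | succ k ih =>
    rw [pow_succ', MulAut.mul_apply, ← ih]
    conv_lhs => rw [← h]
    exact Subgroup.mem_map_iff_mem (f := α.toMonoidHom) α.injective

theorem card_eq {α : MulAut G} {M T : Subgroup G} (hM : IsMx α M) (hT : Inv α T) (h : ¬ T ≤ M) :
    Nat.card T = Nat.card (T ⊓ M :) * M.index := by
  haveI := hM.1
  rw [← Subgroup.relIndex_top_right, ← hM.2.2.2 T hT h, Subgroup.relIndex_sup_right,
    ← Subgroup.inf_relIndex_left, ← Subgroup.card_mul_index ((T ⊓ M).subgroupOf T),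
    Nat.card_congr (Subgroup.subgroupOfEquivOfLe inf_le_left).toEquiv]
  rfl

theorem exists_mx [Group.IsNilpotent G] (α : MulAut G) (C : Subgroup G) (hC : Inv α C)
    (h : C ≠ ⊤) : ∃ M, IsMx α M ∧ C ≤ M := by
  obtain ⟨M, hCM, hM, hmax⟩ := Finite.exists_le_maximal (p := fun K => Inv α K ∧ K ≠ ⊤) ⟨hC, h⟩
  have key : ∀ K, Inv α K → ¬ K ≤ M → K ⊔ M = ⊤ := fun K hK hKM => by
    by_contra hne
    exact hKM (le_sup_left.trans (hmax ⟨by
      rw [Inv, Subgroup.map_sup, hK, hM.1], hne⟩ le_sup_right))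
  refine ⟨M, ⟨?_, hM.2, hM.1, key⟩, hCM⟩
  have h1 := normalizerCondition_of_isNilpotent M (lt_top_iff_ne_top.2 hM.2)
  have h2 := key _ (by rw [Inv, Subgroup.map_equiv_normalizer_eq, hM.1]) h1.not_ge
  rw [sup_eq_left.2 h1.le] at h2
  exact Subgroup.normalizer_eq_top_iff.1 h2

theorem cnt (β : MulAut G) (q : ℕ) [Fact q.Prime] (hβ : β ^ q = 1) (H : Subgroup G)
    (hH : ∀ x, β x ∈ H ↔ x ∈ H) : Nat.card H ≡ Nat.card {x // x ∈ H ∧ β x = x} [MOD q] := by
  classical
  haveI := Fintype.ofFinite G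
  let f : Equiv.Perm H := Equiv.Perm.subtypePerm (MulAut.toPerm G β) hH
  have hf : f ^ q = 1 := by
    rw [Equiv.Perm.subtypePerm_pow]
    ext x
    rw [Equiv.Perm.subtypePerm_apply]
    simp only [← map_pow, hβ, map_one]; rfl
  have := Equiv.Perm.card_fixedPoints_modEq (p := q) (n := 1) (f := (f : H → H)) (by
    rw [pow_one]
    have := congrArg (fun g : Equiv.Perm H => (g : H → H)) hf
    simp only [Equiv.Perm.coe_pow] at this
    exact this)
  rw [← Nat.card_eq_fintype_card, ← Nat.card_eq_fintype_card] at this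
  convert this using 1
  exact Nat.card_congr ⟨fun x => ⟨⟨x.1, x.2.1⟩, Subtype.ext x.2.2⟩,
    fun x => ⟨x.1.1, x.1.2, congrArg Subtype.val x.2⟩, fun _ => rfl, fun _ => rfl⟩

theorem idx [Group.IsNilpotent G] {α : MulAut G} {M : Subgroup G} (hM : IsMx α M) (k q : ℕ)
    (hq : q.Prime) (hβ : (α ^ k) ^ q = 1) (hC : ∀ x, (α ^ k) x = x → x ∈ M) :
    2 ≤ M.index ∧ q ≤ M.index := by
  have h1 : M.index ≠ 1 := fun h => hM.2.1 (Subgroup.index_eq_one.1 h)
  have h0 : M.index ≠ 0 := Subgroup.index_ne_zero_of_finite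
  refine ⟨by omega, ?_⟩
  haveI := Fact.mk (Nat.minFac_prime h1)
  haveI := Fact.mk hq
  obtain ⟨P⟩ : Nonempty (Sylow M.index.minFac G) := inferInstance
  have hP := P.characteristic_of_normal
    (Sylow.normal_of_normalizerCondition normalizerCondition_of_isNilpotent P)
  have hI : Inv α P := Subgroup.characteristic_iff_map_eq.1 hP α
  have hn : ¬ (P : Subgroup G) ≤ M := fun h =>
    P.not_dvd_index ((Nat.minFac_dvd _).trans (Subgroup.index_dvd_of_le h))
  have e := card_eq hM hI hn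
  have c1 := cnt _ q hβ P (hI.pow k)
  have c2 := cnt _ q hβ ((P : Subgroup G) ⊓ M) fun x => and_congr (hI.pow k x) (hM.2.2.1.pow k x)
  have c3 : Nat.card {x // x ∈ (P : Subgroup G) ∧ (α ^ k) x = x} =
      Nat.card {x // x ∈ (P : Subgroup G) ⊓ M ∧ (α ^ k) x = x} :=
    Nat.card_congr (Equiv.subtypeEquivRight fun x =>
      ⟨fun h => ⟨⟨h.1, hC x h.2⟩, h.2⟩, fun h => ⟨h.1.1, h.2⟩⟩)
  rw [c3, e] at c1
  have c4 := (Nat.modEq_iff_dvd' (Nat.le_mul_of_pos_right _ (by omega))).1 (c2.trans c1.symm)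
  rw [← Nat.mul_sub_one] at c4
  rcases (Nat.Prime.dvd_mul hq).1 c4 with h | h
  · obtain ⟨a, ha⟩ := IsPGroup.iff_card.1 (P.2.to_inf_left (K := M))
    rw [ha] at h
    rw [(Nat.prime_dvd_prime_iff_eq hq (Nat.minFac_prime h1)).1 (hq.dvd_of_dvd_pow h)]
    exact Nat.minFac_le (by omega)
  · have := Nat.le_of_dvd (by omega) h; omega

theorem cover (α : MulAut G) (I : Finset ℕ) (M : ℕ → Subgroup G) (x : ℕ → G)
    (hM : ∀ i ∈ I, IsMx α (M i)) (hI : ∀ i ∈ I, 2 ≤ i ∧ i ≤ (M i).index) (n : ℕ) :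
    ∀ T : Subgroup G, Nat.card T = n → Inv α T → ∀ y, (∀ i ∈ I, T ≤ M i → (x i)⁻¹ * y ∉ M i) →
      ∃ z, y⁻¹ * z ∈ T ∧ ∀ i ∈ I, (x i)⁻¹ * z ∉ M i := by
  classical
  haveI := Fintype.ofFinite G
  induction n using Nat.strong_induction_on with
  | _ n ih =>
  intro T hT hTI y hy
  by_cases hJ : (I.filter fun i => ¬ T ≤ M i).Nonempty
  swap
  · refine ⟨y, by simp, fun i hi => hy i hi ?_⟩
    by_contra h
    exact hJ ⟨i, Finset.mem_filter.2 ⟨hi, h⟩⟩
  obtain ⟨j, hj, hmax⟩ := Finset.exists_max_image _ (fun i => Nat.card (T ⊓ M i :)) hJ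
  rw [Finset.mem_filter] at hj
  have ej := card_eq (hM j hj.1) hTI hj.2
  have hpos : 0 < Nat.card (T ⊓ M j :) := Nat.card_pos
  let I' := I.filter fun i => ¬ T ≤ M i ∧ T ⊓ M j ≤ M i
  have h1 : ∀ i ∈ I', Nat.card (T ⊓ M i :) = Nat.card (T ⊓ M j :) := fun i hi => by
    rw [Finset.mem_filter] at hi
    exact le_antisymm (hmax i (Finset.mem_filter.2 ⟨hi.1, hi.2.1⟩))
      (Subgroup.card_le_of_le (le_inf inf_le_left hi.2.2))
  have h2 : I'.card ≤ (M j).index - 1 := by
    refine (Finset.card_le_card (t := Finset.Icc 2 (M j).index) fun i hi => ?_).trans (by simp)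
    have e := h1 i hi
    rw [Finset.mem_filter] at hi
    have ei := card_eq (hM i hi.1) hTI hi.2.1
    rw [e, ej] at ei
    rw [Nat.eq_of_mul_eq_mul_left hpos ei]
    exact Finset.mem_Icc.2 (hI i hi.1)
  let bad := fun i => Finset.univ.filter fun u => u ∈ T ∧ (x i)⁻¹ * (y * u) ∈ M i
  have h3 : ∀ i ∈ I', (bad i).card ≤ Nat.card (T ⊓ M j :) := fun i hi => by
    rw [← h1 i hi]
    rcases (bad i).eq_empty_or_nonempty with h | ⟨u, hu⟩
    · simp [h]
    · rw [Nat.card_eq_fintype_card, Fintype.card_subtype]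
      refine Finset.card_le_card_of_injOn (fun v => u⁻¹ * v) (fun v hv => ?_)
        fun _ _ _ _ h => mul_left_cancel h
      have hu := (Finset.mem_filter.1 hu).2
      have hv := (Finset.mem_filter.1 (Finset.mem_coe.1 hv)).2
      refine Finset.mem_coe.2 (Finset.mem_filter.2 ⟨Finset.mem_univ _,
        T.mul_mem (T.inv_mem hu.1) hv.1, ?_⟩)
      have := (M i).mul_mem ((M i).inv_mem hu.2) hv.2
      simpa [mul_assoc] using this
  have hidx : 2 ≤ (M j).index := (hI j hj.1).1.trans (hI j hj.1).2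
  have h4 : (I'.biUnion bad).card < (Finset.univ.filter fun u => u ∈ T).card := by
    rw [← Fintype.card_subtype, ← Nat.card_eq_fintype_card, ej]
    refine (Finset.card_biUnion_le_card_mul _ _ _ h3).trans_lt ?_
    rw [mul_comm]
    exact Nat.mul_lt_mul_of_pos_left (by omega) hpos
  obtain ⟨u, hu, hu'⟩ := Finset.exists_mem_notMem_of_card_lt_card h4
  have hu := (Finset.mem_filter.1 hu).2
  obtain ⟨z, hz, hz'⟩ := ih (Nat.card (T ⊓ M j :)) (by rw [← hT, ej]; nlinarith) (T ⊓ M j) rfl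
    (by rw [Inv, Subgroup.map_inf _ _ _ α.injective, hTI, (hM j hj.1).2.2.1]) (y * u)
    fun i hi h hb => by
      by_cases hTi : T ≤ M i
      · rw [← mul_assoc, (M i).mul_mem_cancel_right (hTi hu)] at hb
        exact hy i hi hTi hb
      · exact hu' (Finset.mem_biUnion.2 ⟨i, Finset.mem_filter.2 ⟨hi, hTi, h⟩,
          Finset.mem_filter.2 ⟨Finset.mem_univ _, hu, hb⟩⟩)
  exact ⟨z, by simpa [mul_assoc] using T.mul_mem hu hz.1, hz'⟩

theorem result (G : Type) [Group G] [Finite G] [Group.IsNilpotent G] (α : MulAut G) (t : G)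
    (A : Equiv.Perm G) (hA : ∀ x, A x = t * α x) :
    ∃ x, Function.minimalPeriod A x = orderOf A := by
  classical
  have hk : ∀ (k : ℕ) x y, (A ^ k) (x * y) = (A ^ k) x * (α ^ k) y := by
    intro k
    induction k with
    | zero => simp
    | succ k ih =>
      intro x y
      simp only [pow_succ', Equiv.Perm.mul_apply, MulAut.mul_apply, ih, hA, map_mul, mul_assoc]
  set n := orderOf A with hn
  have hn0 : 0 < n := orderOf_pos A
  have hα : α ^ n = 1 := by
    ext y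
    have := hk n 1 y
    simpa [hn, pow_orderOf_eq_one] using this.symm
  let I := n.primeFactors.filter fun q => ∃ x, (A ^ (n / q)) x = x
  have h1 : ∀ q, ∃ (M : Subgroup G) (x : G), q ∈ I → IsMx α M ∧ (2 ≤ q ∧ q ≤ M.index) ∧
      ∀ z, (A ^ (n / q)) z = z → x⁻¹ * z ∈ M := by
    intro q
    by_cases hq : q ∈ I
    swap
    · exact ⟨⊤, 1, fun h => absurd h hq⟩
    obtain ⟨hq, x, hx⟩ := Finset.mem_filter.1 hq
    obtain ⟨hp, hd, -⟩ := Nat.mem_primeFactors.1 hq
    let C := (α ^ (n / q)).toMonoidHom.eqLocus (MonoidHom.id G)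
    have hC : ∀ y, y ∈ C ↔ (α ^ (n / q)) y = y := fun _ => Iff.rfl
    have hc : ∀ y, (α ^ (n / q)) (α y) = α ((α ^ (n / q)) y) := fun y => by
      rw [← MulAut.mul_apply, ← pow_succ, pow_succ', MulAut.mul_apply]
    obtain ⟨M, hM, hCM⟩ := exists_mx α C (by
      ext y
      obtain ⟨y, rfl⟩ := α.surjective y
      refine (Subgroup.mem_map_iff_mem (f := α.toMonoidHom) α.injective).trans ?_
      rw [hC, hC, hc, α.apply_eq_iff_eq]) fun h => by
      refine pow_ne_one_of_lt_orderOf (x := A) (n := n / q)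
        (Nat.div_pos (Nat.le_of_dvd hn0 hd) hp.pos).ne' (Nat.div_lt_self hn0 hp.one_lt) ?_
      ext y
      have := hk (n / q) x (x⁻¹ * y)
      rw [hx, (hC _).1 (h ▸ Subgroup.mem_top _)] at this
      simpa using this
    refine ⟨M, x, fun _ => ⟨hM, ⟨hp.two_le, (idx hM (n / q) q hp ?_ fun y hy => hCM hy).2⟩,
      fun z hz => hCM ((hC _).2 ?_)⟩⟩
    · rw [← pow_mul, Nat.div_mul_cancel hd, hα]
    · have := hk (n / q) x (x⁻¹ * z)
      rw [mul_inv_cancel_left, hz, hx] at this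
      exact (inv_mul_eq_iff_eq_mul.2 this).symm
  choose M x h using h1
  obtain ⟨z, -, hz⟩ := cover α I M x (fun i hi => (h i hi).1) (fun i hi => (h i hi).2.1) _ ⊤ rfl
    (Subgroup.map_top_of_surjective _ α.surjective) 1
    fun i hi hh => absurd (top_le_iff.1 hh) (h i hi).1.2.1
  refine ⟨z, ?_⟩
  obtain ⟨c, hc⟩ : Function.minimalPeriod A z ∣ n := Function.IsPeriodicPt.minimalPeriod_dvd (by
    rw [Function.IsPeriodicPt, Function.IsFixedPt, ← Equiv.Perm.coe_pow, hn, pow_orderOf_eq_one]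
    rfl)
  by_contra hne
  have hc1 : c ≠ 1 := by rintro rfl; exact hne (by omega)
  obtain ⟨q, hq, d, rfl⟩ := Nat.exists_prime_and_dvd hc1
  have e : n / q = Function.minimalPeriod A z * d := by
    rw [hc, mul_left_comm, Nat.mul_div_cancel_left _ hq.pos]
  have hf : (A ^ (n / q)) z = z := by
    rw [e, Equiv.Perm.coe_pow]
    exact (Function.isPeriodicPt_minimalPeriod A z).mul_const d
  have hI : q ∈ I := Finset.mem_filter.2 ⟨Nat.mem_primeFactors.2 ⟨hq,
    hc ▸ (Dvd.intro d rfl).mul_left _, hn0.ne'⟩, z, hf⟩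
  exact hz q hI ((h q hI).2.2 z hf)

end Pool.Agent.Results.MP_27f3b7_al.Regular
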